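import Pool.Agent.Y922.AP.Stm

set_option autoImplicit false

/-!
Project AP, job STRIP: the Riemann xi function is small in vertical strips.
-/

namespace Pool.Agent.Y340.AP

open Complex Filter Topology Set MeasureTheory Pool.Agent.Y922.AP

/-- `|Γ(s)| ≤ Γ(Re s)` -/
theorem norm_Gamma_le (s : ℂ) (hs : 0 < s.re) : ‖Complex.Gamma s‖ ≤ Real.Gamma s.re := by
  rw [Complex.Gamma_eq_integral hs, Real.Gamma_eq_integral hs]
  unfold Complex.GammaIntegral
  refine (norm_integral_le_integral_norm _).trans (le_of_eq ?_)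
  refine setIntegral_congr_fun measurableSet_Ioi fun x hx => ?_
  have hx0 : 0 < x := hx
  show ‖((Real.exp (-x) : ℝ) : ℂ) * (x : ℂ) ^ (s - 1)‖ = Real.exp (-x) * x ^ (s.re - 1)
  rw [norm_mul, Complex.norm_real, Real.norm_of_nonneg (Real.exp_pos _).le,
    Complex.norm_cpow_eq_rpow_re_of_pos hx0]
  simp

theorem Gamma_shift (s : ℂ) (hs : 0 < s.re) (N : ℕ) :
    Complex.Gamma (s + N) = (∏ j ∈ Finset.range N, (s + j)) * Complex.Gamma s := by
  induction N with
  | zero => simp
  | succ N ih =>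
    have h1 : s + (N : ℂ) ≠ 0 := by
      intro h
      have : (s + (N : ℂ)).re = 0 := by rw [h]; simp
      simp at this
      have h2 : (0 : ℝ) ≤ N := Nat.cast_nonneg N
      linarith
    have h2 := Complex.Gamma_add_one _ h1
    push_cast
    rw [← add_assoc, h2, ih, Finset.prod_range_succ]
    ring

theorem prod_lower (s : ℂ) (hs : 1 / 2 ≤ s.re) (N : ℕ) :
    ((1 + |s.im|) / 4) ^ N ≤ ‖∏ j ∈ Finset.range N, (s + (j : ℂ))‖ := by
  rw [norm_prod]
  have h1 : ((1 + |s.im|) / 4) ^ N = ∏ _j ∈ Finset.range N, ((1 + |s.im|) / 4) := by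
    rw [Finset.prod_const, Finset.card_range]
  rw [h1]
  apply Finset.prod_le_prod
  · intro j _
    positivity
  · intro j _
    have h2 : |s.re + j| ≤ ‖s + (j : ℂ)‖ := by
      have := Complex.abs_re_le_norm (s + (j : ℂ))
      simpa using this
    have h3 : |s.im| ≤ ‖s + (j : ℂ)‖ := by
      have := Complex.abs_im_le_norm (s + (j : ℂ))
      simpa using this
    have h4 : (0 : ℝ) ≤ j := Nat.cast_nonneg j
    rw [abs_of_nonneg (by linarith)] at h2
    linarith

theorem norm_Gamma_decay (s : ℂ) (hs : 1 / 2 ≤ s.re) (N : ℕ) :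
    ‖Complex.Gamma s‖ ≤ 4 ^ N * Real.Gamma (s.re + N) / (1 + |s.im|) ^ N := by
  have h0 : 0 < s.re := by linarith
  have h1 := Gamma_shift s h0 N
  have h2 := norm_Gamma_le (s + N) (by simp; positivity)
  have h3 := prod_lower s hs N
  rw [h1, norm_mul] at h2
  have e : (s + (N : ℂ)).re = s.re + N := by simp
  rw [e] at h2
  rw [le_div_iff₀ (by positivity)]
  have h4 : (0 : ℝ) < (1 + |s.im|) / 4 := by positivity
  have h5 : ((1 + |s.im|) / 4) ^ N * ‖Complex.Gamma s‖ ≤ Real.Gamma (s.re + N) :=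
    le_trans (mul_le_mul_of_nonneg_right h3 (norm_nonneg _)) h2
  rw [div_pow, div_mul_eq_mul_div, div_le_iff₀ (by positivity)] at h5
  linarith

lemma norm_zeta_le_two {s : ℂ} (hs : 2 ≤ s.re) : ‖riemannZeta s‖ ≤ 2 := by
  rw [zeta_eq_tsum_one_div_nat_add_one_cpow (by linarith)]
  have hterm : ∀ n : ℕ, ‖1 / ((n : ℂ) + 1) ^ s‖ ≤ 1 / ((n : ℝ) + 1) ^ 2 := by
    intro n
    have h1 : ((n : ℂ) + 1) = (((n : ℝ) + 1 : ℝ) : ℂ) := by push_cast; ring
    rw [norm_div, norm_one, h1, Complex.norm_cpow_eq_rpow_re_of_pos (by positivity)]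
    apply one_div_le_one_div_of_le (by positivity)
    rw [← Real.rpow_natCast]
    apply Real.rpow_le_rpow_of_exponent_le _ (by exact_mod_cast hs)
    have : (0 : ℝ) ≤ n := Nat.cast_nonneg n
    linarith
  have hs2 : Summable (fun n : ℕ => 1 / ((n : ℝ) + 1) ^ 2) := by
    have h := (summable_nat_add_iff 1).2 hasSum_zeta_two.summable
    refine h.congr fun n => ?_
    push_cast
    rfl
  have hz : ∑' n : ℕ, 1 / ((n : ℝ) + 1) ^ 2 = Real.pi ^ 2 / 6 := by
    have h1 := hasSum_zeta_two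
    have h2 := h1.summable.tsum_eq_zero_add
    rw [h1.tsum_eq] at h2
    simp only [Nat.cast_zero, ne_eq, OfNat.ofNat_ne_zero, not_false_eq_true, zero_pow, div_zero,
      zero_add, Nat.cast_add, Nat.cast_one] at h2
    exact h2.symm
  refine (tsum_of_norm_bounded hs2.hasSum hterm).trans ?_
  rw [hz]
  have hpi := Real.pi_lt_d2
  have hpi0 := Real.pi_pos
  nlinarith

/-- a Mellin transform is bounded in vertical strips -/
lemma mellin_bound (f : ℝ → ℂ) (h : ∀ s : ℂ, MellinConvergent f s) (b : ℝ) :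
    ∃ C : ℝ, ∀ s : ℂ, |s.re| ≤ b → ‖mellin f s‖ ≤ C := by
  have h1 := (h (b : ℂ)).norm
  have h2 := (h (-b : ℂ)).norm
  refine ⟨∫ t in Ioi (0:ℝ), (‖(t:ℂ) ^ ((b:ℂ) - 1) • f t‖ + ‖(t:ℂ) ^ (-(b:ℂ) - 1) • f t‖),
    fun s hs => ?_⟩
  unfold mellin
  refine (norm_integral_le_integral_norm _).trans ?_
  refine setIntegral_mono_on (h s).norm (h1.add h2) measurableSet_Ioi fun t ht => ?_
  have ht0 : 0 < t := ht
  rw [norm_smul, norm_smul, norm_smul, ← add_mul]
  refine mul_le_mul_of_nonneg_right ?_ (norm_nonneg _)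
  rw [norm_cpow_eq_rpow_re_of_pos ht0, norm_cpow_eq_rpow_re_of_pos ht0,
    norm_cpow_eq_rpow_re_of_pos ht0]
  have hre := abs_le.1 hs
  simp only [sub_re, ofReal_re, neg_re, one_re]
  rcases le_total 1 t with h | h
  · have h3 : t ^ (s.re - 1) ≤ t ^ (b - 1) := Real.rpow_le_rpow_of_exponent_le h (by linarith)
    have h4 := Real.rpow_nonneg ht0.le (-b-1)
    linarith
  · have h3 : t ^ (s.re - 1) ≤ t ^ (-b - 1) := Real.rpow_le_rpow_of_exponent_ge ht0 h (by linarith)
    have h4 := Real.rpow_nonneg ht0.le (b-1)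
    linarith

lemma L0_bound (b : ℝ) : ∃ C : ℝ, 0 ≤ C ∧ ∀ s : ℂ, |s.re| ≤ b → ‖completedRiemannZeta₀ s‖ ≤ C := by
  obtain ⟨C, hC⟩ := mellin_bound (HurwitzZeta.hurwitzEvenFEPair 0).f_modif
    (fun s => ((HurwitzZeta.hurwitzEvenFEPair 0).isStrongFEPair_toStrongFEPair.hasMellin s).1) b
  refine ⟨|C|, abs_nonneg _, fun s hs => ?_⟩
  have e : completedRiemannZeta₀ s = mellin (HurwitzZeta.hurwitzEvenFEPair 0).f_modif (s / 2) / 2 := rfl
  rw [e, norm_div]
  have h1 : |(s / 2).re| ≤ b := by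
    have e2 : (s / 2).re = s.re / 2 := by simp
    rw [e2, abs_div, abs_two]
    have := abs_nonneg s.re
    linarith
  have h2 := hC _ h1
  have h3 : ‖(2:ℂ)‖ = 2 := by simp
  rw [h3]
  have := le_abs_self C
  have := norm_nonneg (mellin (HurwitzZeta.hurwitzEvenFEPair 0).f_modif (s / 2))
  linarith

lemma xi_symm (s : ℂ) : xi (1 - s) = xi s := by
  unfold xi
  rw [completedRiemannZeta₀_one_sub]
  ring

lemma xi_diff : Differentiable ℂ xi := by
  unfold xi
  have := differentiable_completedZeta₀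
  fun_prop

lemma xi_eq {s : ℂ} (h0 : s ≠ 0) (h1 : s ≠ 1) (hG : Gammaℝ s ≠ 0) :
    xi s = s * (s - 1) * (Gammaℝ s * riemannZeta s) / 2 := by
  have e1 : Gammaℝ s * riemannZeta s = completedRiemannZeta s := by
    rw [riemannZeta_def_of_ne_zero h0]
    field_simp
  rw [e1, completedRiemannZeta_eq]
  unfold xi
  have h2 : 1 - s ≠ 0 := sub_ne_zero.2 (Ne.symm h1)
  field_simp
  ring

/-- superpolynomial decay on the line `Re s = B` -/
lemma line_bound (B : ℝ) (hB : 2 ≤ B) : ∃ C : ℝ, 0 ≤ C ∧ ∀ s : ℂ, s.re = B → (1 + ‖s‖) * ‖xi s‖ ≤ C := by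
  refine ⟨256 * B ^ 3 * Real.Gamma (B / 2 + 3), ?_, fun s hs => ?_⟩
  · have : 0 < Real.Gamma (B / 2 + 3) := Real.Gamma_pos_of_pos (by linarith)
    positivity
  have h0 : s ≠ 0 := by
    rintro rfl
    simp at hs
    linarith
  have h1 : s ≠ 1 := by
    rintro rfl
    simp at hs
    linarith
  have hG : Gammaℝ s ≠ 0 := Gammaℝ_ne_zero_of_re_pos (by linarith)
  rw [xi_eq h0 h1 hG]
  set u : ℝ := 1 + |s.im| / 2 with hu
  have hu0 : 1 ≤ u := by have := abs_nonneg s.im; rw [hu]; linarith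
  have hsn : ‖s‖ ≤ B * u := by
    have := norm_le_abs_re_add_abs_im s
    rw [hs, abs_of_nonneg (by linarith)] at this
    have := abs_nonneg s.im
    nlinarith
  have hBu : 1 ≤ B * u := by nlinarith
  have hsn1 : ‖s - 1‖ ≤ 2 * (B * u) := by
    have := norm_sub_le s 1
    rw [norm_one] at this
    linarith
  have hG2 : ‖Gammaℝ s‖ ≤ 64 * Real.Gamma (B / 2 + 3) / u ^ 3 := by
    rw [Gammaℝ_def, norm_mul]
    have e1 : ‖(Real.pi : ℂ) ^ (-s / 2)‖ ≤ 1 := by
      rw [norm_cpow_eq_rpow_re_of_pos Real.pi_pos]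
      apply Real.rpow_le_one_of_one_le_of_nonpos
      · linarith [Real.pi_gt_three]
      · simp
        linarith
    have e2 := norm_Gamma_decay (s / 2) (by simp; linarith) 3
    have e3 : (s / 2).re = B / 2 := by simp [hs]
    have e4 : (s / 2).im = s.im / 2 := by simp
    rw [e3, e4, abs_div, abs_two, ← hu] at e2
    norm_num at e2
    calc ‖(Real.pi : ℂ) ^ (-s / 2)‖ * ‖Complex.Gamma (s / 2)‖ ≤ 1 * (64 * Real.Gamma (B / 2 + 3) / u ^ 3) := by
          gcongr
      _ = _ := one_mul _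
  have hz : ‖riemannZeta s‖ ≤ 2 := norm_zeta_le_two (by linarith)
  rw [norm_div, norm_mul, norm_mul, norm_mul]
  have e5 : ‖(2:ℂ)‖ = 2 := by simp
  rw [e5]
  have hGp : 0 < Real.Gamma (B / 2 + 3) := Real.Gamma_pos_of_pos (by linarith)
  calc (1 + ‖s‖) * (‖s‖ * ‖s - 1‖ * (‖Gammaℝ s‖ * ‖riemannZeta s‖) / 2)
      ≤ (2 * (B * u)) * ((B * u) * (2 * (B * u)) * ((64 * Real.Gamma (B / 2 + 3) / u ^ 3) * 2) / 2) := by
        gcongr
        linarith
    _ = 256 * B ^ 3 * Real.Gamma (B / 2 + 3) := by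
        have : u ≠ 0 := by positivity
        field_simp
        ring

theorem t_STRIP : S_STRIP := by
  intro c b hc
  obtain ⟨B, hB⟩ : ∃ B : ℝ, B = |b| + 2 := ⟨_, rfl⟩
  have hb0 := abs_nonneg b
  have hB2 : 2 ≤ B := by linarith
  obtain ⟨C, hC0, hC⟩ := line_bound B hB2
  obtain ⟨D, hD0, hD⟩ := L0_bound B
  have key : ∀ s : ℂ, 1 - B ≤ s.re → s.re ≤ B → ‖s * xi s‖ ≤ C := by
    intro s hs1 hs2
    refine PhragmenLindelof.vertical_strip (f := fun s => s * xi s) (a := 1 - B) (b := B) ?_ ?_ ?_ ?_ hs1 hs2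
    · exact (differentiable_id.mul xi_diff).diffContOnCl
    · refine ⟨Real.pi / (B - (1 - B)) / 2, ?_, 3 / (Real.pi / (B - (1 - B)) / 2), ?_⟩
      · have : 0 < Real.pi / (B - (1 - B)) := div_pos Real.pi_pos (by linarith)
        linarith
      · have hk : 0 < Real.pi / (B - (1 - B)) / 2 := by
          have : 0 < Real.pi / (B - (1 - B)) := div_pos Real.pi_pos (by linarith)
          linarith
        set k : ℝ := Real.pi / (B - (1 - B)) / 2
        refine Asymptotics.IsBigO.of_bound ((B + 1) ^ 3 * (D + 1)) ?_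
        refine Filter.mem_of_superset (Filter.mem_inf_of_right (mem_principal_self _)) fun z hz => ?_
        have hz1 : 1 - B < z.re := hz.1
        have hz2 : z.re < B := hz.2
        have hzr : |z.re| ≤ B := abs_le.2 ⟨by linarith, by linarith⟩
        show ‖z * xi z‖ ≤ (B + 1) ^ 3 * (D + 1) * ‖Real.exp (3 / k * Real.exp (k * |z.im|))‖
        rw [Real.norm_of_nonneg (Real.exp_pos _).le]
        have hzn : ‖z‖ ≤ (B + 1) * Real.exp |z.im| := by
          have h1 := norm_le_abs_re_add_abs_im z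
          have h2 := Real.add_one_le_exp |z.im|
          have h3 := abs_nonneg z.im
          nlinarith
        have hzn1 : ‖z - 1‖ ≤ (B + 1) * Real.exp |z.im| := by
          have h1 := norm_le_abs_re_add_abs_im (z - 1)
          have h2 := Real.add_one_le_exp |z.im|
          have h3 := abs_nonneg z.im
          have h4 : |(z - 1).re| ≤ B + 1 := by
            simp only [sub_re, one_re]
            exact abs_le.2 ⟨by linarith, by linarith⟩
          have h5 : (z - 1).im = z.im := by simp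
          rw [h5] at h1
          nlinarith
        have he : 1 ≤ Real.exp |z.im| := Real.one_le_exp (abs_nonneg _)
        have hx : ‖xi z‖ ≤ (B + 1) ^ 2 * Real.exp |z.im| ^ 2 * (D + 1) := by
          unfold xi
          rw [norm_div]
          have e5 : ‖(2:ℂ)‖ = 2 := by simp
          rw [e5]
          have h1 := norm_add_le (z * (z - 1) * completedRiemannZeta₀ z) 1
          rw [norm_one, norm_mul, norm_mul] at h1
          have h2 := hD z hzr
          have h3 : ‖z‖ * ‖z - 1‖ * ‖completedRiemannZeta₀ z‖ ≤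
              ((B + 1) * Real.exp |z.im|) * ((B + 1) * Real.exp |z.im|) * D := by
            gcongr
          have h4 : 1 ≤ (B + 1) ^ 2 * Real.exp |z.im| ^ 2 := by
            have : 1 ≤ (B + 1) * Real.exp |z.im| := by nlinarith
            rw [← mul_pow]
            exact one_le_pow₀ this
          nlinarith
        rw [norm_mul]
        have h6 : Real.exp |z.im| ^ 3 ≤ Real.exp (3 / k * Real.exp (k * |z.im|)) := by
          rw [← Real.exp_nat_mul]
          apply Real.exp_le_exp.2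
          have h7 := Real.add_one_le_exp (k * |z.im|)
          rw [div_mul_eq_mul_div, le_div_iff₀ hk]
          push_cast
          nlinarith
        calc ‖z‖ * ‖xi z‖ ≤ ((B + 1) * Real.exp |z.im|) * ((B + 1) ^ 2 * Real.exp |z.im| ^ 2 * (D + 1)) := by
              gcongr
          _ = (B + 1) ^ 3 * (D + 1) * Real.exp |z.im| ^ 3 := by ring
          _ ≤ _ := by gcongr
    · intro z hz
      have h1 := hC (1 - z) (by simp [hz])
      rw [xi_symm] at h1
      refine le_trans ?_ h1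
      rw [norm_mul]
      gcongr
      have h2 := norm_sub_le (1:ℂ) (1 - z)
      rw [norm_one] at h2
      simpa using h2
    · intro z hz
      have h1 := hC z hz
      refine le_trans ?_ h1
      rw [norm_mul]
      gcongr
      linarith
  refine ⟨C / c + 1, fun s hs1 hs2 => ?_⟩
  have h1 := abs_le.1 (hs1.trans (le_abs_self b))
  have h2 := key s (by linarith) (by linarith)
  rw [norm_mul] at h2
  have h3 := abs_im_le_norm s
  have h4 : 0 ≤ C / c := div_nonneg hC0 hc.le
  have h5 : C < c * ‖s‖ := by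
    have h6 : C / c < ‖s‖ := by linarith
    rw [div_lt_iff₀ hc] at h6
    linarith
  by_contra h7
  push Not at h7
  have h8 : ‖s‖ * c ≤ ‖s‖ * ‖xi s‖ := by gcongr
  linarith

end Pool.Agent.Y340.AP
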